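import Pool.Agent.H992.PM.Defs

/-!
# PM/S: the local theorem
-/

set_option autoImplicit false
open MeasureTheory Filter Topology Complex ProbabilityTheory
open scoped ContDiff ENNReal

namespace Pool.Agent.H505.PM

open Pool.Agent.W745.RW (TF)
open Pool.Agent.N661.BR (MW IsRandomWave)
open Pool.Agent.N661.BH (loc)
open Pool.Agent.N814.BHM (P mass)
open Pool.Agent.N814.BHASM (Hyp X)
open Pool.Agent.H992.LB (eγ eX)
open Pool.Agent.H992.PM

theorem cmul {Ω : Set ℂ} {χ : ℂ → ℝ} (h : TF Ω χ) (C : ℝ) : TF Ω (fun z => C * χ z) :=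
  ⟨contDiff_const.mul h.1, h.2.1.mul_left, (tsupport_mul_subset_right).trans h.2.2⟩

theorem add {Ω : Set ℂ} {φ χ : ℂ → ℝ} (h : TF Ω φ) (h' : TF Ω χ) : TF Ω (fun z => φ z + χ z) :=
  ⟨h.1.add h'.1, h.2.1.add h'.2.1, (tsupport_add φ χ).trans (Set.union_subset h.2.2 h'.2.2)⟩

theorem exists_K {ψ χ : ℂ → ℝ} (hψ : Continuous ψ) (h0 : ∀ z, 0 ≤ ψ z) (hχ : Continuous χ)
    (hc : HasCompactSupport χ) (hsub : tsupport χ ⊆ {z | 0 < ψ z}) : ∃ K : ℝ, ∀ z, |χ z| ≤ K * ψ z := by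
  obtain ⟨C, hC⟩ := hχ.bounded_above_of_compact_support hc
  have hC0 : 0 ≤ C := (norm_nonneg _).trans (hC 0)
  rcases (tsupport χ).eq_empty_or_nonempty with he | hne
  · refine ⟨0, fun z => ?_⟩
    have hz : z ∉ tsupport χ := by rw [he]; exact Set.notMem_empty z
    rw [image_eq_zero_of_notMem_tsupport hz]
    simp
  · obtain ⟨z0, hz0, hmin⟩ := hc.isCompact.exists_isMinOn hne hψ.continuousOn
    have hm : 0 < ψ z0 := hsub hz0
    refine ⟨C / ψ z0, fun z => ?_⟩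
    by_cases hz : z ∈ tsupport χ
    · have h1 : |χ z| ≤ C := hC z
      have h2 : ψ z0 ≤ ψ z := hmin hz
      refine h1.trans ?_
      rw [div_mul_eq_mul_div, le_div_iff₀ hm]
      exact mul_le_mul_of_nonneg_left h2 hC0
    · rw [image_eq_zero_of_notMem_tsupport hz, abs_zero]
      exact mul_nonneg (div_nonneg hC0 hm.le) (h0 z)

theorem int_im {Ω : Set ℂ} (hΩ : MeasurableSet Ω) (hsub : Ω ⊆ {z : ℂ | 0 < z.im}) {χ : ℂ → ℝ}
    (hχ : TF Ω χ) : IntegrableOn (fun z => χ z / z.im ^ 2) Ω := by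
  have h1 : ContinuousOn (fun z : ℂ => χ z / z.im ^ 2) (tsupport χ) := by
    apply ContinuousOn.div hχ.1.continuous.continuousOn
    · exact (Complex.continuous_im.pow 2).continuousOn
    · intro z hz
      exact pow_ne_zero 2 (ne_of_gt (hsub (hχ.2.2 hz)))
  have h2 : IntegrableOn (fun z : ℂ => χ z / z.im ^ 2) (tsupport χ) :=
    h1.integrableOn_compact hχ.2.1.isCompact
  refine h2.of_forall_sdiff_eq_zero hΩ fun z hz => ?_
  rw [image_eq_zero_of_notMem_tsupport hz.2, zero_div]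

theorem ps (h1 : S_PB) (h2 : S_PT) (h3 : S_PW) (h4 : S_PX) (h5 : S_PM) (h6 : S_PP) : S_PS := by
  intro Ω lam u H γ hγp hγ ψ hψ h0 U hU hne hb χ hχ hsub k w Q
  have hW : WConv Ω lam u γ ψ :=
    h3 Ω lam u H γ hγp hγ ψ hψ h0 U hU hne (h2 Ω lam u H γ hγp hγ ψ hψ h0 U hb)
  -- positive weights
  have pos : ∀ a : ℂ → ℝ, TF Ω a → (∀ z, 0 ≤ a z) → tsupport a ⊆ {z | 0 < ψ z} →
      Tendsto (fun n => pMean Ω a (lam n) (u n) w Q) atTop
        (𝓝 ((∫ f : MW, MvPolynomial.eval (fun j => f (w j)) Q ∂γ) *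
          ∫ z in Ω, a z / z.im ^ 2)) := by
    intro a ha ha0 hasub
    exact h6 Ω lam u H γ hγp hγ a ha ha0
      (h4 Ω lam u H γ hγp hγ ψ hψ h0 hW a ha
        (exists_K hψ.1.continuous h0 ha.1.continuous ha.2.1 hasub))
      (h5 Ω lam u H γ hγp hγ ψ hψ h0 U hne hb a ha ha0 hasub) k w Q
  -- the cutoff
  obtain ⟨C, hC⟩ := hχ.1.continuous.bounded_above_of_compact_support hχ.2.1
  have hC0 : 0 ≤ C := (norm_nonneg _).trans (hC 0)
  have hV : IsOpen ({z | 0 < ψ z} ∩ Ω) := (isOpen_lt continuous_const hψ.1.continuous).inter H.op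
  obtain ⟨η, e1, e2, e3, e4⟩ := Pool.Agent.Y265.RW.cutoff hV hχ.2.1.isCompact
    (Set.subset_inter hsub hχ.2.2)
  have hη : TF Ω η := ⟨e1.1, e1.2.1, e1.2.2.trans Set.inter_subset_right⟩
  have hηs : tsupport η ⊆ {z | 0 < ψ z} := e1.2.2.trans Set.inter_subset_left
  have hb' : TF Ω (fun z => C * η z) := cmul hη C
  have hbs : tsupport (fun z => C * η z) ⊆ {z | 0 < ψ z} :=
    (tsupport_mul_subset_right).trans hηs
  have hb0 : ∀ z, 0 ≤ C * η z := fun z => mul_nonneg hC0 (e2 z)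
  have ha : TF Ω (fun z => χ z + C * η z) := add hχ hb'
  have has : tsupport (fun z => χ z + C * η z) ⊆ {z | 0 < ψ z} :=
    (tsupport_add χ (fun z => C * η z)).trans (Set.union_subset hsub hbs)
  have ha0 : ∀ z, 0 ≤ χ z + C * η z := by
    intro z
    by_cases hz : z ∈ tsupport χ
    · rw [e4 z hz, mul_one]
      have := hC z
      rw [Real.norm_eq_abs, abs_le] at this
      linarith [this.1]
    · rw [image_eq_zero_of_notMem_tsupport hz, zero_add]
      exact hb0 z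
  have l := (pos _ ha ha0 has).sub (pos _ hb' hb0 hbs)
  have hlin : (∫ z in Ω, (χ z + C * η z) / z.im ^ 2) - ∫ z in Ω, (C * η z) / z.im ^ 2 =
      ∫ z in Ω, χ z / z.im ^ 2 := by
    rw [← integral_sub (int_im H.op.measurableSet H.sub ha) (int_im H.op.measurableSet H.sub hb')]
    refine integral_congr_ae (Eventually.of_forall fun z => ?_)
    simp only
    ring
  rw [← mul_sub, hlin] at l
  refine l.congr' ?_
  filter_upwards [h1 Ω lam u H _ ha k w Q, h1 Ω lam u H _ hb' k w Q, h1 Ω lam u H _ hχ k w Q] with n a1 a2 a3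
  rw [a1.2, a2.2, a3.2, ← mul_sub, ← integral_sub a1.1 a2.1]
  congr 1
  refine integral_congr_ae (Eventually.of_forall fun p => ?_)
  simp only
  ring

end Pool.Agent.H505.PM
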